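import Pool.Agent.Helper37.ETC.Defs

/-!
# Block ETC-KD1 (helper68): bounded sets in a V-topology
-/

set_option autoImplicit false

namespace Pool.Helper37.ETC

open Filter

section KD1

variable {F : Type*} [Field F] {𝒩 : Filter F}

theorem Bd.mono {S T : Set F} (h : Bd 𝒩 T) (hST : S ⊆ T) : Bd 𝒩 S := by
  intro U hU
  obtain ⟨W, hW, h1⟩ := h U hU
  exact ⟨W, hW, fun s hs x hx => h1 s (hST hs) x hx⟩

theorem Bd.union {S T : Set F} (h : Bd 𝒩 S) (h' : Bd 𝒩 T) : Bd 𝒩 (S ∪ T) := by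
  intro U hU
  obtain ⟨W, hW, h1⟩ := h U hU
  obtain ⟨W', hW', h2⟩ := h' U hU
  refine ⟨W ∩ W', inter_mem hW hW', ?_⟩
  rintro s (hs | hs) x hx
  · exact h1 s hs x hx.1
  · exact h2 s hs x hx.2

theorem Bd.mul {S T : Set F} (h : Bd 𝒩 S) (h' : Bd 𝒩 T) :
    Bd 𝒩 {x | ∃ s ∈ S, ∃ t ∈ T, x = s * t} := by
  intro U hU
  obtain ⟨W, hW, h1⟩ := h U hU
  obtain ⟨W', hW', h2⟩ := h' W hW
  refine ⟨W', hW', ?_⟩
  rintro _ ⟨s, hs, t, ht, rfl⟩ x hx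
  rw [mul_assoc]
  exact h1 s hs _ (h2 t ht x hx)

theorem bd_empty : Bd 𝒩 (∅ : Set F) := fun U hU => ⟨U, hU, fun s hs => absurd hs (by simp)⟩

namespace VNhd

theorem neg_mem (h : VNhd 𝒩) {U : Set F} (hU : U ∈ 𝒩) : {x | -x ∈ U} ∈ 𝒩 := by
  have := h.smul U hU (-1)
  simpa using this

/-- symmetric neighbourhoods. -/
theorem exists_symm (h : VNhd 𝒩) {U : Set F} (hU : U ∈ 𝒩) :
    ∃ W ∈ 𝒩, W ⊆ U ∧ ∀ x ∈ W, -x ∈ W := by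
  refine ⟨U ∩ {x | -x ∈ U}, inter_mem hU (h.neg_mem hU), fun x hx => hx.1, ?_⟩
  rintro x ⟨h1, h2⟩
  refine ⟨h2, ?_⟩
  show -(-x) ∈ U
  rwa [neg_neg]

/-- Hausdorff. -/
theorem sep (h : VNhd 𝒩) {x : F} (hx : x ≠ 0) : ∃ U ∈ 𝒩, x ∉ U := by
  obtain ⟨U, hU, h1⟩ := h.proper
  refine ⟨_, h.smul U hU x⁻¹, ?_⟩
  intro h2
  have h3 : x⁻¹ * x ∈ U := h2
  rw [inv_mul_cancel₀ hx] at h3
  exact h1 h3

theorem sub_mem (h : VNhd 𝒩) {U : Set F} (hU : U ∈ 𝒩) :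
    ∃ W ∈ 𝒩, ∀ x ∈ W, ∀ y ∈ W, x - y ∈ U := by
  obtain ⟨W, hW, h1⟩ := h.add U hU
  obtain ⟨W', hW', h2, h3⟩ := h.exists_symm hW
  refine ⟨W', hW', fun x hx y hy => ?_⟩
  rw [sub_eq_add_neg]
  exact h1 x (h2 hx) _ (h2 (h3 y hy))

theorem bd_singleton (h : VNhd 𝒩) (c : F) : Bd 𝒩 {c} := by
  intro U hU
  refine ⟨_, h.smul U hU c, ?_⟩
  rintro _ rfl x hx
  exact hx

theorem bd_finite (h : VNhd 𝒩) {S : Set F} (hS : S.Finite) : Bd 𝒩 S := by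
  induction S, hS using Set.Finite.induction_on with
  | empty => exact bd_empty
  | insert _ _ ih =>
    rw [Set.insert_eq]
    exact (h.bd_singleton _).union ih

theorem bd_add (h : VNhd 𝒩) {S T : Set F} (hS : Bd 𝒩 S) (hT : Bd 𝒩 T) :
    Bd 𝒩 {x | ∃ s ∈ S, ∃ t ∈ T, x = s + t} := by
  intro U hU
  obtain ⟨U', hU', h0⟩ := h.add U hU
  obtain ⟨W, hW, h1⟩ := hS U' hU'
  obtain ⟨W', hW', h2⟩ := hT U' hU'
  refine ⟨W ∩ W', inter_mem hW hW', ?_⟩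
  rintro _ ⟨s, hs, t, ht, rfl⟩ x hx
  rw [add_mul]
  exact h0 _ (h1 s hs x hx.1) _ (h2 t ht x hx.2)

/-- a bounded set can be scaled into every neighbourhood. -/
theorem exists_smul (h : VNhd 𝒩) {S : Set F} (hS : Bd 𝒩 S) {U : Set F} (hU : U ∈ 𝒩) :
    ∃ c : F, c ≠ 0 ∧ ∀ s ∈ S, c * s ∈ U := by
  obtain ⟨W, hW, h1⟩ := hS U hU
  obtain ⟨c, hc, hc0⟩ := h.nondisc W hW
  refine ⟨c, hc0, fun s hs => ?_⟩
  rw [mul_comm]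
  exact h1 s hs c hc

/-- multiples of bounded sets are bounded. -/
theorem bd_of_mul (h : VNhd 𝒩) {S U : Set F} (hU : Bd 𝒩 U) (c : F)
    (hS : ∀ s ∈ S, ∃ u ∈ U, s = c * u) : Bd 𝒩 S := by
  refine ((h.bd_singleton c).mul hU).mono ?_
  intro s hs
  obtain ⟨u, hu, rfl⟩ := hS s hs
  exact ⟨c, rfl, u, hu, rfl⟩

/-- a set that can be scaled (by a nonzero element) into a bounded set is bounded. -/
theorem bd_of_smul_mem (h : VNhd 𝒩) {S U : Set F} (hU : Bd 𝒩 U) {c : F} (hc : c ≠ 0)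
    (hS : ∀ s ∈ S, c * s ∈ U) : Bd 𝒩 S :=
  h.bd_of_mul hU c⁻¹ fun s hs => ⟨c * s, hS s hs, by rw [inv_mul_cancel_left₀ hc]⟩

theorem not_bd_univ (h : VNhd 𝒩) : ¬ Bd 𝒩 (Set.univ : Set F) := by
  intro hb
  obtain ⟨U, hU, h1⟩ := h.proper
  obtain ⟨c, hc, h2⟩ := h.exists_smul hb hU
  apply h1
  have := h2 c⁻¹ (Set.mem_univ _)
  rwa [mul_inv_cancel₀ hc] at this

theorem bd_inv (h : VNhd 𝒩) {U : Set F} (hU : U ∈ 𝒩) : Bd 𝒩 {x : F | x⁻¹ ∉ U} := by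
  intro U' hU'
  obtain ⟨W, hW, h1⟩ := h.vprop (U ∩ U') (inter_mem hU hU')
  refine ⟨W, hW, fun s hs w hw => ?_⟩
  have hs0 : s ≠ 0 := by
    rintro rfl
    apply hs
    rw [inv_zero]
    exact h.zero_mem U hU
  have e : s * w * s⁻¹ = w := by field_simp
  rcases h1 (s * w) s⁻¹ (by rwa [e]) with h2 | h2
  · exact h2.2
  · exact absurd h2.1 hs

/-- KD1 -/
theorem exists_bd {𝒩 : Filter F} (h : VNhd 𝒩) :
    ∃ U ∈ 𝒩, Bd 𝒩 U ∧ Bd 𝒩 {x : F | x⁻¹ ∉ U} := by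
  obtain ⟨U₁, hU₁, h1⟩ := h.proper
  obtain ⟨U, hU, h2⟩ := h.mul U₁ hU₁
  refine ⟨U, hU, ?_, h.bd_inv hU⟩
  refine ((h.bd_singleton 0).union (h.bd_inv hU)).mono ?_
  intro x hx
  by_cases hx0 : x = 0
  · exact Or.inl hx0
  · refine Or.inr fun hinv => h1 ?_
    have := h2 x hx _ hinv
    rwa [mul_inv_cancel₀ hx0] at this

theorem pbd_mul {x y : F} (hx : PBd 𝒩 x) (hy : PBd 𝒩 y) : PBd 𝒩 (x * y) := by
  refine (Bd.mul hx hy).mono ?_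
  rintro _ ⟨n, rfl⟩
  exact ⟨x ^ n, ⟨n, rfl⟩, y ^ n, ⟨n, rfl⟩, mul_pow _ _ _⟩

theorem tnil_mul {x y : F} (hx : TNil 𝒩 x) (hy : PBd 𝒩 y) : TNil 𝒩 (x * y) := by
  intro U hU
  obtain ⟨W, hW, h1⟩ := hy U hU
  obtain ⟨n₀, h2⟩ := hx W hW
  refine ⟨n₀, fun n hn => ?_⟩
  rw [mul_pow, mul_comm]
  exact h1 _ ⟨n, rfl⟩ _ (h2 n hn)

theorem pbd_of_tnil (h : VNhd 𝒩) {x : F} (hx : TNil 𝒩 x) : PBd 𝒩 x := by
  obtain ⟨U, hU, hb, -⟩ := h.exists_bd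
  obtain ⟨n₀, h1⟩ := hx U hU
  have hfin : ((fun n : ℕ => x ^ n) '' Set.Iio n₀).Finite := (Set.finite_Iio n₀).image _
  refine (hb.union (h.bd_finite hfin)).mono ?_
  rintro _ ⟨n, rfl⟩
  by_cases hn : n₀ ≤ n
  · exact Or.inl (h1 n hn)
  · exact Or.inr ⟨n, by simpa using hn, rfl⟩

theorem pbd_pow_iff (h : VNhd 𝒩) {x : F} {n : ℕ} (hn : 1 ≤ n) : PBd 𝒩 (x ^ n) ↔ PBd 𝒩 x := by
  constructor
  · intro hx
    have hfin : ((fun k : ℕ => x ^ k) '' Set.Iio n).Finite := (Set.finite_Iio n).image _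
    refine ((h.bd_finite hfin).mul hx).mono ?_
    rintro _ ⟨m, rfl⟩
    refine ⟨x ^ (m % n), ⟨m % n, Nat.mod_lt _ hn, rfl⟩, (x ^ n) ^ (m / n), ⟨m / n, rfl⟩, ?_⟩
    simp only
    rw [← pow_mul, ← pow_add, Nat.mod_add_div]
  · intro hx
    refine Bd.mono hx ?_
    rintro _ ⟨m, rfl⟩
    exact ⟨n * m, by simp only [pow_mul]⟩

/-- `x` is topologically nilpotent as soon as the powers come close to zero and are bounded. -/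
theorem tnil_of_pbd (_h : VNhd 𝒩) {x : F} (hx : PBd 𝒩 x)
    (h0 : ∀ U ∈ 𝒩, ∃ n : ℕ, x ^ n ∈ U) : TNil 𝒩 x := by
  intro U hU
  obtain ⟨W, hW, h1⟩ := hx U hU
  obtain ⟨n₀, h2⟩ := h0 W hW
  refine ⟨n₀, fun n hn => ?_⟩
  obtain ⟨k, rfl⟩ := Nat.exists_eq_add_of_le hn
  rw [pow_add, mul_comm]
  exact h1 _ ⟨k, rfl⟩ _ h2

theorem not_tnil_one (h : VNhd 𝒩) : ¬ TNil 𝒩 (1 : F) := by
  intro h1
  obtain ⟨U, hU, h2⟩ := h.proper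
  obtain ⟨n₀, h3⟩ := h1 U hU
  apply h2
  have := h3 n₀ le_rfl
  rwa [one_pow] at this

/-- `x` and `x⁻¹` are not power bounded and topologically nilpotent respectively. -/
theorem not_tnil_of_pbd_inv (h : VNhd 𝒩) {x : F} (hx0 : x ≠ 0) (hx : TNil 𝒩 x) :
    ¬ PBd 𝒩 x⁻¹ := by
  intro h1
  have := tnil_mul hx h1
  rw [mul_inv_cancel₀ hx0] at this
  exact h.not_tnil_one this

end VNhd

end KD1

end Pool.Helper37.ETC
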